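import Mathlib
import Pool.Agent.H98.Code.AA
import Pool.Agent.H98.Code.Minor

set_option autoImplicit false

/-!
Steps (8) and (9) of helper28's note 6894 (MP_a46c6f_co, target (A)), in the code language of
`Pool.Agent.H98.Code`: the coupling of the parts at a root is symmetric, and the parity count.
-/

namespace Pool.Agent.H35.CP

open Pool.Agent.H98.Code

variable {V : Type} [Fintype V] {ι : Type}

/-- the parts `M i` of a full state `β` at the root `r`: `μ i` is the pointed word `(r; M i)`, and the
words below `β` off `r` with `0` or `z` at `r` are trivial on every part -/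
structure Parts (L : Submodule (ZMod 2) (V → K)) (r : V) (β : V → K) (M : ι → Set V)
    (μ : ι → V → K) : Prop where
  beta : ∀ v, v ≠ r → (β v).1 = 1
  disj : ∀ i j, i ≠ j → ∀ v, v ∈ M i → v ∉ M j
  cover : ∀ v, v ≠ r → ∃ i, v ∈ M i
  notr : ∀ i, r ∉ M i
  mem : ∀ i, μ i ∈ L
  atr : ∀ i, μ i r = z
  onM : ∀ i, ∀ v ∈ M i, μ i v = β v
  off : ∀ i, ∀ v, v ≠ r → v ∉ M i → μ i v = 0
  cor : ∀ u ∈ L, (u r).1 = 0 → (∀ v, v ≠ r → u v = 0 ∨ u v = β v) →
    ∀ i, (∀ p ∈ M i, u p = 0) ∨ (∀ p ∈ M i, u p = β p)

/-- the words of `L` below `β` off `M j` and `r`, with `0` or `z` at `r` -/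
def C (L : Submodule (ZMod 2) (V → K)) (r : V) (β : V → K) (M : ι → Set V) (j : ι) (u : V → K) :
    Prop :=
  u ∈ L ∧ (u r).1 = 0 ∧ ∀ v, v ≠ r → v ∉ M j → u v = 0 ∨ u v = β v

/-- the part `j` is coupled to the part `i` -/
def Coupled (L : Submodule (ZMod 2) (V → K)) (r : V) (β : V → K) (M : ι → Set V) (j i : ι) : Prop :=
  ∃ u, C L r β M j u ∧ (∃ p ∈ M i, u p ≠ 0) ∧ ∃ p ∈ M i, u p = 0

theorem k_ne_zero {a : K} (h : a.1 = 1) : a ≠ 0 := by
  rintro rfl
  exact absurd h (by decide)

/-- the key step: if the words of `C a` are trivial on `M b`, then those of `C b` are trivial on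
`M a` -/
theorem trivial_symm {L : Submodule (ZMod 2) (V → K)} (hL : IsCode L) {r : V} {β : V → K}
    {M : ι → Set V} {μ : ι → V → K} (P : Parts L r β M μ) {a b : ι} (hab : a ≠ b)
    (ha : ∀ u, C L r β M a u → (∀ p ∈ M b, u p = 0) ∨ ∀ p ∈ M b, u p = β p) :
    ∀ u', C L r β M b u' → (∀ p ∈ M a, u' p = 0) ∨ ∀ p ∈ M a, u' p = β p := by
  classical
  rintro u' ⟨hu', hu'r, hu'β⟩
  -- the restriction of `u'` to `M a`
  set w : V → K := fun v => if v ∈ M a then u' v else 0 with hw
  set w' : V → K := fun v => if v ∈ M b then u' v else 0 with hw'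
  set σ : V → K := fun v => if v = r then z else β v with hσ
  let j : {v // v ∈ M a} → V := Subtype.val
  have hrange : ∀ v, v ∉ Set.range j ↔ v ∉ M a := by
    intro v
    constructor
    · intro h hv; exact h ⟨⟨v, hv⟩, rfl⟩
    · rintro h ⟨x, rfl⟩; exact h x.2
  have hσ0 : ∀ v, v ∉ Set.range j → σ v ≠ 0 := by
    intro v _
    by_cases hv : v = r
    · simp only [hσ, hv, if_true]
      decide
    · simp only [hσ, hv, if_false]
      exact k_ne_zero (P.beta v hv)
  have hmin := minor_isCode hL (ι := j) Subtype.val_injective hσ0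
  have horth : ∀ u, C L r β M a u → form w u = 0 := by
    rintro u ⟨hu, hur, huβ⟩
    have h0 : form u' u = 0 := hL.iso _ hu' _ hu
    have hpt : ∀ v, kf (u' v) (u v) = kf (w v) (u v) + kf (w' v) (u v) := by
      intro v
      by_cases hva : v ∈ M a
      · have hvb : v ∉ M b := P.disj a b hab v hva
        simp only [hw, hw', hva, hvb, if_true, if_false]
        rw [kf_zero_left, add_zero]
      · by_cases hvb : v ∈ M b
        · simp only [hw, hw', hva, hvb, if_true, if_false]
          rw [kf_zero_left, zero_add]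
        · simp only [hw, hw', hva, hvb, if_false]
          rw [kf_zero_left, add_zero]
          by_cases hvr : v = r
          · subst hvr
            simp only [kf, hu'r, hur]
            ring
          · exact kf_of_kf _ _ (β v) (k_ne_zero (P.beta v hvr))
              ((kf_eq_zero_iff _ _ (k_ne_zero (P.beta v hvr))).2 (hu'β v hvr hvb))
              ((kf_eq_zero_iff _ _ (k_ne_zero (P.beta v hvr))).2 (huβ v hvr hva))
    have hsum : form u' u = form w u + form w' u := by
      unfold form
      rw [← Finset.sum_add_distrib]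
      exact Finset.sum_congr rfl fun v _ => hpt v
    have hw'0 : form w' u = 0 := by
      rcases ha u ⟨hu, hur, huβ⟩ with h | h
      · unfold form
        refine Finset.sum_eq_zero fun v _ => ?_
        by_cases hvb : v ∈ M b
        · rw [h v hvb, kf_zero_right]
        · simp only [hw', hvb, if_false]
          rw [kf_zero_left]
      · have h1 : form w' u = form u' (μ b) := by
          unfold form
          refine Finset.sum_congr rfl fun v _ => ?_
          by_cases hvb : v ∈ M b
          · simp only [hw', hvb, if_true]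
            rw [h v hvb, P.onM b v hvb]
          · simp only [hw', hvb, if_false]
            rw [kf_zero_left]
            by_cases hvr : v = r
            · subst hvr
              rw [P.atr b, kf_z_right, hu'r]
            · rw [P.off b v hvr hvb, kf_zero_right]
        rw [h1]
        exact hL.iso _ hu' _ (P.mem b)
    rw [hsum, hw'0, add_zero] at h0
    exact h0
  -- `w` restricted to `M a` is in the minor
  have hmem : (fun x => w (j x)) ∈ Minor L j σ := by
    apply hmin.max
    rintro c ⟨u, hu, hu1, rfl⟩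
    have hC : C L r β M a u := by
      have hr : r ∉ Set.range j := (hrange r).2 (P.notr a)
      refine ⟨hu, ?_, ?_⟩
      · have := hu1 r hr
        simp only [hσ, if_true] at this
        rwa [kf_z_right] at this
      · intro v hv hva
        have := hu1 v ((hrange v).2 hva)
        simp only [hσ, hv, if_false] at this
        exact (kf_eq_zero_iff _ _ (k_ne_zero (P.beta v hv))).1 this
    have h1 : form (fun x => w (j x)) (fun x => u (j x)) = form w u := by
      unfold form
      refine Fintype.sum_of_injective j Subtype.val_injective _ _ (fun v hv => ?_) fun x => rfl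
      have : v ∉ M a := (hrange v).1 hv
      simp only [hw, this, if_false]
      rw [kf_zero_left]
    rw [h1]
    exact horth u hC
  obtain ⟨t, ht, ht1, ht2⟩ := hmem
  have hta : ∀ v ∈ M a, t v = u' v := by
    intro v hv
    have := congrFun ht2 ⟨v, hv⟩
    simp only [hw, j, hv, if_true] at this
    exact this.symm
  have htr : (t r).1 = 0 := by
    have := ht1 r ((hrange r).2 (P.notr a))
    simp only [hσ, if_true] at this
    rwa [kf_z_right] at this
  have htβ : ∀ v, v ≠ r → t v = 0 ∨ t v = β v := by
    intro v hv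
    by_cases hva : v ∈ M a
    · rw [hta v hva]
      exact hu'β v hv (P.disj a b hab v hva)
    · have := ht1 v ((hrange v).2 hva)
      simp only [hσ, hv, if_false] at this
      exact (kf_eq_zero_iff _ _ (k_ne_zero (P.beta v hv))).1 this
  rcases P.cor t ht htr htβ a with h | h
  · left
    intro p hp
    rw [← hta p hp]; exact h p hp
  · right
    intro p hp
    rw [← hta p hp]; exact h p hp

/-- **(8)**: the coupling is symmetric -/
theorem coupled_symm {L : Submodule (ZMod 2) (V → K)} (hL : IsCode L) {r : V} {β : V → K}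
    {M : ι → Set V} {μ : ι → V → K} (P : Parts L r β M μ) {i j : ι} (hij : i ≠ j)
    (h : Coupled L r β M j i) : Coupled L r β M i j := by
  by_contra hcon
  obtain ⟨u, hu, ⟨p, hp, hup⟩, q, hq, huq⟩ := h
  have key : ∀ u, C L r β M i u → (∀ p ∈ M j, u p = 0) ∨ ∀ p ∈ M j, u p = β p := by
    intro u' hu'
    by_contra hno
    push_neg at hno
    obtain ⟨⟨p, hp, hup⟩, q, hq, huq⟩ := hno
    apply hcon
    refine ⟨u', hu', ⟨p, hp, hup⟩, q, hq, ?_⟩
    have hqr : q ≠ r := fun h => P.notr j (h ▸ hq)
    rcases hu'.2.2 q hqr (P.disj j i hij.symm q hq) with h | h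
    · exact h
    · exact absurd h huq
  rcases trivial_symm hL P hij key u hu with h | h
  · exact hup (h p hp)
  · have hqr : q ≠ r := fun h => P.notr i (h ▸ hq)
    rw [h q hq] at huq
    exact k_ne_zero (P.beta q hqr) huq

/-- an irreflexive symmetric relation in which every element has exactly one partner lives on an
even set -/
theorem even_card_of_pairing {ι : Type} [Fintype ι] (R : ι → ι → Prop)
    (hs : ∀ i j, R j i → R i j) (hu : ∀ j, ∃ i, R j i ∧ ∀ i', R j i' → i' = i)
    (hi : ∀ j, ¬ R j j) : Even (Fintype.card ι) := by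
  classical
  choose f hf1 hf2 using hu
  have hff : ∀ j, f (f j) = j := fun j => (hf2 (f j) j (hs _ _ (hf1 j))).symm
  have hne : ∀ j, f j ≠ j := fun j h => hi j (by have := hf1 j; rwa [h] at this)
  have hsum : ∑ _j : ι, (1 : ZMod 2) = 0 := by
    refine Finset.sum_involution (fun j _ => f j) ?_ ?_ ?_ ?_
    · intro j _; decide
    · intro j _ _; exact hne j
    · intro j _; exact Finset.mem_univ _
    · intro j _; exact hff j
  simp only [Finset.sum_const, Finset.card_univ, nsmul_eq_mul, mul_one] at hsum
  exact (ZMod.natCast_eq_zero_iff_even).1 hsum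

/-- if every part is coupled to exactly one other part, the number of parts is even -/
theorem even_parts [Fintype ι] {L : Submodule (ZMod 2) (V → K)} (hL : IsCode L) {r : V} {β : V → K}
    {M : ι → Set V} {μ : ι → V → K} (P : Parts L r β M μ)
    (h : ∀ j, ∃ i, i ≠ j ∧ Coupled L r β M j i ∧ ∀ i', i' ≠ j → Coupled L r β M j i' → i' = i) :
    Even (Fintype.card ι) := by
  refine even_card_of_pairing (fun j i => i ≠ j ∧ Coupled L r β M j i) ?_ ?_ ?_
  · rintro i j ⟨h1, h2⟩
    exact ⟨h1.symm, coupled_symm hL P h1 h2⟩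
  · intro j
    obtain ⟨i, hi, hc, hu⟩ := h j
    exact ⟨i, ⟨hi, hc⟩, fun i' ⟨h1, h2⟩ => hu i' h1 h2⟩
  · intro j h
    exact h.1 rfl

/-- the number mod 2 of off-diagonal ones in row `s` -/
def dg (H : V → V → ZMod 2) (s : V) : ZMod 2 := ∑ w, H s w + H s s

theorem sum_symm (f : V → V → ZMod 2) (hf : ∀ a b, f a b = f b a) :
    ∑ a, ∑ b, f a b = ∑ a, f a a := by
  classical
  have h1 : ∑ p : V × V, (if p.1 = p.2 then 0 else f p.1 p.2) = 0 := by
    refine Finset.sum_involution (fun p _ => (p.2, p.1)) ?_ ?_ ?_ ?_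
    · intro p _
      by_cases h : p.1 = p.2
      · simp [h]
      · have h' : p.2 ≠ p.1 := fun e => h e.symm
        simp only [h, h', if_false]
        rw [hf p.2 p.1]
        exact CharTwo.add_self_eq_zero _
    · intro p _ hp e
      apply hp
      have : p.1 = p.2 := (congrArg Prod.fst e).symm
      simp [this]
    · intro p _; exact Finset.mem_univ _
    · intro p _; rfl
  rw [Fintype.sum_prod_type] at h1
  have h2 : ∀ a, ∑ b, (if a = b then 0 else f a b) = ∑ b, f a b + f a a := by
    intro a
    have : ∀ b, (if a = b then 0 else f a b) = f a b + if a = b then f a b else 0 := by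
      intro b
      by_cases h : a = b
      · simp only [h, if_true]
        exact (CharTwo.add_self_eq_zero _).symm
      · simp [h]
    simp only [this]
    rw [Finset.sum_add_distrib, Finset.sum_ite_eq, if_pos (Finset.mem_univ _)]
  simp only [h2] at h1
  rw [Finset.sum_add_distrib] at h1
  exact CharTwo.add_eq_zero.1 h1

/-- **(9)**: for a pointed word with point `r` and letters on `M`, the sum of the degrees over `M` is
odd -/
theorem sum_dg {L : Submodule (ZMod 2) (V → K)} {H : V → V → ZMod 2} (hs : ∀ u v, H u v = H v u)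
    (hH : ∀ u, u ∈ L ↔ ∀ v, (u v).2 = ∑ w, H v w * (u w).1) {c : V → K} (hc : c ∈ L) {r : V}
    (hr : c r = z) (h0 : ∀ v, v ≠ r → (c v).1 = 0 → c v = 0) :
    ∑ s, (c s).1 * dg H s = 1 := by
  classical
  have h1 := (hH c).1 hc
  have e1 : ∑ w, (1 + (c w).1) * (c w).2 = 1 := by
    rw [Finset.sum_eq_single r]
    · rw [hr]; decide
    · intro v _ hv
      rcases (by decide : ∀ a : ZMod 2, a = 0 ∨ a = 1) (c v).1 with h | h
      · rw [h0 v hv h]; simp
      · rw [h]
        have : (1 + 1 : ZMod 2) = 0 := by decide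
        rw [this, zero_mul]
    · intro h; exact absurd (Finset.mem_univ _) h
  have e2 : ∑ w, (1 + (c w).1) * (c w).2 =
      ∑ w, ∑ s, H w s * (c s).1 + ∑ w, ∑ s, (c w).1 * (H w s * (c s).1) := by
    rw [← Finset.sum_add_distrib]
    refine Finset.sum_congr rfl fun w _ => ?_
    rw [h1 w, add_mul, one_mul, Finset.mul_sum]
  have e3 : ∑ w, ∑ s, (c w).1 * (H w s * (c s).1) = ∑ s, (c s).1 * H s s := by
    rw [sum_symm]
    · refine Finset.sum_congr rfl fun s _ => ?_
      rcases (by decide : ∀ a : ZMod 2, a = 0 ∨ a = 1) (c s).1 with h | h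
      · rw [h]; ring
      · rw [h]; ring
    · intro a b
      rw [hs a b]; ring
  have e4 : ∑ w, ∑ s, H w s * (c s).1 = ∑ s, (c s).1 * ∑ w, H s w := by
    rw [Finset.sum_comm]
    refine Finset.sum_congr rfl fun s _ => ?_
    rw [Finset.mul_sum]
    refine Finset.sum_congr rfl fun w _ => ?_
    rw [hs w s]; ring
  rw [e2, e3, e4, ← Finset.sum_add_distrib] at e1
  rw [← e1]
  refine Finset.sum_congr rfl fun s _ => ?_
  unfold dg
  ring

/-- the number of parts at `r` is the degree of `r` mod 2 -/
theorem card_parts [Fintype ι] {L : Submodule (ZMod 2) (V → K)} {H : V → V → ZMod 2}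
    (hH : ∀ u, u ∈ L ↔ ∀ v, (u v).2 = ∑ w, H v w * (u w).1) {r : V} {β : V → K}
    {M : ι → Set V} {μ : ι → V → K} (P : Parts L r β M μ) :
    (Fintype.card ι : ZMod 2) = dg H r := by
  classical
  have hmem : (∑ i, μ i) ∈ L := L.sum_mem fun i _ => P.mem i
  have h1 := (hH _).1 hmem r
  have e1 : (∑ i, μ i) r = (Fintype.card ι : ZMod 2) • z := by
    rw [Finset.sum_apply]
    simp only [P.atr]
    rw [Finset.sum_const, Finset.card_univ]
    rw [Nat.cast_smul_eq_nsmul]
  have e2 : ∀ v, v ≠ r → ((∑ i, μ i) v).1 = 1 := by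
    intro v hv
    obtain ⟨i, hi⟩ := P.cover v hv
    rw [Finset.sum_apply, Finset.sum_eq_single i]
    · rw [P.onM i v hi]; exact P.beta v hv
    · intro j _ hj
      exact P.off j v hv (P.disj i j (Ne.symm hj) v hi)
    · intro h; exact absurd (Finset.mem_univ _) h
  have e3 : ((∑ i, μ i) r).1 = 0 := by
    rw [e1]; simp [z]
  have e4 : ((∑ i, μ i) r).2 = Fintype.card ι := by
    rw [e1]; simp [z]
  rw [e4] at h1
  rw [h1]
  unfold dg
  have : ∀ w, H r w * ((∑ i, μ i) w).1 = H r w + if w = r then H r r else 0 := by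
    intro w
    by_cases h : w = r
    · subst h
      rw [e3, mul_zero, if_pos rfl]
      exact (CharTwo.add_self_eq_zero _).symm
    · rw [e2 w h, mul_one, if_neg h, add_zero]
  simp only [this]
  rw [Finset.sum_add_distrib, Finset.sum_ite_eq', if_pos (Finset.mem_univ _)]

/-- **(9)**: it is impossible that every vertex has an even degree if some pointed word exists -/
theorem exists_odd_dg {L : Submodule (ZMod 2) (V → K)} {H : V → V → ZMod 2}
    (hs : ∀ u v, H u v = H v u) (hH : ∀ u, u ∈ L ↔ ∀ v, (u v).2 = ∑ w, H v w * (u w).1)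
    {c : V → K} (hc : c ∈ L) {r : V} (hr : c r = z) (h0 : ∀ v, v ≠ r → (c v).1 = 0 → c v = 0) :
    ∃ s, (c s).1 = 1 ∧ dg H s = 1 := by
  by_contra hcon
  push_neg at hcon
  have := sum_dg hs hH hc hr h0
  rw [Finset.sum_eq_zero] at this
  · exact absurd this (by decide)
  · intro s _
    rcases (by decide : ∀ a : ZMod 2, a = 0 ∨ a = 1) (c s).1 with h | h
    · rw [h, zero_mul]
    · rcases (by decide : ∀ a : ZMod 2, a = 0 ∨ a = 1) (dg H s) with h' | h'
      · rw [h', mul_zero]
      · exact absurd h' (hcon s h)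

end Pool.Agent.H35.CP
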